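import Mathlib

/-!
# Extending total colourings of distance-3 matchings in 2-degenerate graphs: the proof
-/

namespace Pool.Agent.H59.TotExt

open Finset Classical

variable {V : Type} {k : ℕ}

/-- Greedy choice of distinct colours. -/
lemma sdr (L : V → Finset (Fin k)) :
    ∀ (n : ℕ) (I : Finset V), I.card = n →
      (∀ T ⊆ I, T.Nonempty → ∃ x ∈ T, T.card ≤ (L x).card) →
      0 < k → ∃ c : V → Fin k, (∀ x ∈ I, c x ∈ L x) ∧ ∀ x ∈ I, ∀ y ∈ I, x ≠ y → c x ≠ c y := by
  intro n
  induction n with
  | zero =>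
    intro I hI _ hk
    rw [Finset.card_eq_zero] at hI
    subst hI
    exact ⟨fun _ => ⟨0, hk⟩, by simp, by simp⟩
  | succ n ih =>
    intro I hI h hk
    have hne : I.Nonempty := by
      rw [← Finset.card_pos]; omega
    obtain ⟨x, hx, hcx⟩ := h I (Finset.Subset.refl _) hne
    have hc : (I.erase x).card = n := by rw [Finset.card_erase_of_mem hx]; omega
    obtain ⟨c, hc1, hc2⟩ := ih (I.erase x) hc
      (fun T hT hTn => h T (hT.trans (Finset.erase_subset _ _)) hTn) hk
    have hlt : ((I.erase x).image c).card < (L x).card := by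
      have := Finset.card_image_le (s := I.erase x) (f := c)
      omega
    obtain ⟨d, hd1, hd2⟩ := Finset.exists_mem_notMem_of_card_lt_card hlt
    refine ⟨Function.update c x d, ?_, ?_⟩
    · intro y hy
      by_cases hyx : y = x
      · subst hyx; simpa using hd1
      · rw [Function.update_of_ne hyx]
        exact hc1 y (Finset.mem_erase.2 ⟨hyx, hy⟩)
    · intro y hy z hz hyz
      by_cases hyx : y = x
      · subst hyx
        rw [Function.update_self, Function.update_of_ne (Ne.symm hyz)]
        intro he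
        exact hd2 (Finset.mem_image.2 ⟨z, Finset.mem_erase.2 ⟨Ne.symm hyz, hz⟩, he.symm⟩)
      · rw [Function.update_of_ne hyx]
        by_cases hzx : z = x
        · subst hzx
          rw [Function.update_self]
          intro he
          exact hd2 (Finset.mem_image.2 ⟨y, Finset.mem_erase.2 ⟨hyx, hy⟩, he⟩)
        · rw [Function.update_of_ne hzx]
          exact hc2 y (Finset.mem_erase.2 ⟨hyx, hy⟩) z (Finset.mem_erase.2 ⟨hzx, hz⟩) hyz

section

variable (G H : SimpleGraph V)

/-- neighbours of `v` in `A` -/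
noncomputable def nb (A : Finset V) (v : V) : Finset V := A.filter (fun x => G.Adj v x)

lemma mem_nb {A : Finset V} {v x : V} : x ∈ nb G A v ↔ x ∈ A ∧ G.Adj v x := by
  simp [nb]

/-- the invariant of the peeling process -/
def Good (d : ℕ) (A R : Finset V) : Prop :=
  ∀ r ∈ R, (nb G A r).card ≤ d + 1 ∧ ((∀ r', H.Adj r r' → r' ∉ R) → (nb G A r).card ≤ d) ∧
    ∀ r' ∈ R, H.Adj r r' → (nb G A r).card ≤ d ∨ (nb G A r').card ≤ d

lemma find_w (d : ℕ) (A supp : Finset V)
    (hadj : ∀ u ∈ supp, ∀ v ∈ supp, G.Adj u v → H.Adj u v)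
    (huniq : ∀ u v w, H.Adj u v → H.Adj u w → v = w)
    (h2 : ∀ S : Finset V, S.Nonempty → ∃ v ∈ S, (nb G S v).card ≤ d)
    (hne : (A \ supp).Nonempty) :
    ∀ (m : ℕ) (R : Finset V), R ⊆ supp → (supp \ R).card = m → Good G H d A R →
      ∃ w ∈ A \ supp, ∃ R' ⊆ supp, (nb G (A \ R') w).card ≤ d ∧ Good G H d A R' := by
  intro m
  induction m with
  | zero =>
    intro R hR hm hg
    have hSne : (A \ R).Nonempty := by
      obtain ⟨w, hw⟩ := hne
      rw [Finset.mem_sdiff] at hw
      exact ⟨w, Finset.mem_sdiff.2 ⟨hw.1, fun h => hw.2 (hR h)⟩⟩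
    obtain ⟨v, hv, hv2⟩ := h2 _ hSne
    rw [Finset.mem_sdiff] at hv
    have : v ∉ supp := by
      intro hvs
      rw [Finset.card_eq_zero, Finset.sdiff_eq_empty_iff_subset] at hm
      exact hv.2 (hm hvs)
    exact ⟨v, Finset.mem_sdiff.2 ⟨hv.1, this⟩, R, hR, hv2, hg⟩
  | succ m ih =>
    intro R hR hm hg
    have hSne : (A \ R).Nonempty := by
      obtain ⟨w, hw⟩ := hne
      rw [Finset.mem_sdiff] at hw
      exact ⟨w, Finset.mem_sdiff.2 ⟨hw.1, fun h => hw.2 (hR h)⟩⟩
    obtain ⟨v, hv, hv2⟩ := h2 _ hSne
    rw [Finset.mem_sdiff] at hv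
    by_cases hvs : v ∈ supp
    swap
    · exact ⟨v, Finset.mem_sdiff.2 ⟨hv.1, hvs⟩, R, hR, hv2, hg⟩
    have hsplit : nb G A v ⊆ nb G (A \ R) v ∪ nb G R v := by
      intro x hx
      rw [mem_nb] at hx
      rw [Finset.mem_union, mem_nb, mem_nb, Finset.mem_sdiff]
      by_cases hxR : x ∈ R
      · exact Or.inr ⟨hxR, hx.2⟩
      · exact Or.inl ⟨⟨hx.1, hxR⟩, hx.2⟩
    have hR1 : (nb G R v).card ≤ 1 := by
      rw [Finset.card_le_one]
      intro x hx y hy
      rw [mem_nb] at hx hy
      exact huniq v x y (hadj v hvs x (hR hx.1) hx.2) (hadj v hvs y (hR hy.1) hy.2)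
    have hc1 : (nb G A v).card ≤ d + 1 := by
      have h3 := Finset.card_le_card hsplit
      have h4 := Finset.card_union_le (nb G (A \ R) v) (nb G R v)
      omega
    apply ih (insert v R) (Finset.insert_subset hvs hR)
    · have : supp \ insert v R = (supp \ R).erase v := by
        ext x; simp only [Finset.mem_sdiff, Finset.mem_insert, Finset.mem_erase]; tauto
      rw [this, Finset.card_erase_of_mem (Finset.mem_sdiff.2 ⟨hvs, hv.2⟩)]
      omega
    · intro r hr
      have hmate : ∀ r' ∈ R, H.Adj r' v → (nb G A r').card ≤ d := by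
        intro r' hr' hav
        apply (hg r' hr').2.1
        intro x hx
        rw [huniq r' x v hx hav]
        exact hv.2
      rcases Finset.mem_insert.1 hr with rfl | hrR
      · refine ⟨hc1, ?_, ?_⟩
        · intro hno
          have : nb G R r = ∅ := by
            rw [Finset.eq_empty_iff_forall_notMem]
            intro x hx
            rw [mem_nb] at hx
            exact hno x (hadj r hvs x (hR hx.1) hx.2) (Finset.mem_insert_of_mem hx.1)
          rw [this, Finset.union_empty] at hsplit
          exact (Finset.card_le_card hsplit).trans hv2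
        · intro r' hr' hrr'
          have hne' : r' ≠ r := fun h => H.loopless.irrefl r (h ▸ hrr')
          have hr'R : r' ∈ R := (Finset.mem_insert.1 hr').resolve_left hne'
          exact Or.inr (hmate r' hr'R hrr'.symm)
      · refine ⟨(hg r hrR).1, ?_, ?_⟩
        · intro hno
          exact (hg r hrR).2.1 (fun x hx hxR => hno x hx (Finset.mem_insert_of_mem hxR))
        · intro r' hr' hrr'
          rcases Finset.mem_insert.1 hr' with rfl | hr'R
          · exact Or.inl (hmate r hrR hrr')
          · exact (hg r hrR).2.2 r' hr'R hrr'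

/-- partial total colouring of `G[A]` -/
def Col (A : Finset V) (g : V → Fin k) (f : Sym2 V → Fin k) : Prop :=
  (∀ u ∈ A, ∀ v ∈ A, G.Adj u v → g u ≠ g v) ∧
  (∀ u ∈ A, ∀ v ∈ A, ∀ x ∈ A, G.Adj u v → G.Adj u x → v ≠ x → f s(u, v) ≠ f s(u, x)) ∧
  (∀ u ∈ A, ∀ v ∈ A, G.Adj u v → g u ≠ f s(u, v))

/-- Extending the colouring by one vertex `w`. -/
lemma extend_one (A supp : Finset V) (w : V) (hw : w ∈ A) (hws : w ∉ supp)
    (g : V → Fin k) (f : Sym2 V → Fin k) (hcol : Col G (A.erase w) g f)
    (c : V → Fin k)
    (hcw : ∀ x ∈ nb G A w, c w ≠ g x)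
    (hcx : ∀ x ∈ nb G A w, c x ≠ g x ∧ ∀ y ∈ A, y ≠ w → G.Adj x y → c x ≠ f s(x, y))
    (hinj : ∀ x ∈ insert w (nb G A w), ∀ y ∈ insert w (nb G A w), x ≠ y → c x ≠ c y) :
    ∃ (g' : V → Fin k) (f' : Sym2 V → Fin k), Col G A g' f' ∧ (∀ v ∈ supp, g' v = g v) ∧
      ∀ u ∈ supp, ∀ v ∈ supp, f' s(u, v) = f s(u, v) := by
  refine ⟨Function.update g w (c w),
    fun e => if h : w ∈ e then c (Sym2.Mem.other h) else f e, ⟨?_, ?_, ?_⟩, ?_, ?_⟩
  · intro u hu v hv huv
    by_cases h1 : u = w
    · subst h1
      have hne : v ≠ u := huv.ne'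
      rw [Function.update_self, Function.update_of_ne hne]
      exact hcw v ((mem_nb G).2 ⟨hv, huv⟩)
    · rw [Function.update_of_ne h1]
      by_cases h2 : v = w
      · subst h2
        rw [Function.update_self]
        exact (hcw u ((mem_nb G).2 ⟨hu, huv.symm⟩)).symm
      · rw [Function.update_of_ne h2]
        exact hcol.1 u (Finset.mem_erase.2 ⟨h1, hu⟩) v (Finset.mem_erase.2 ⟨h2, hv⟩) huv
  · have hw1 : ∀ x, (if h : w ∈ s(w, x) then c (Sym2.Mem.other h) else f s(w, x)) = c x := by
      intro x
      have hm : w ∈ s(w, x) := Sym2.mem_mk_left w x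
      rw [dif_pos hm]
      have := Sym2.other_spec hm
      rw [Sym2.congr_right.1 this]
    have hw2 : ∀ x, (if h : w ∈ s(x, w) then c (Sym2.Mem.other h) else f s(x, w)) = c x := by
      intro x
      rw [Sym2.eq_swap]
      exact hw1 x
    intro u hu v hv x hx huv hux hvx
    show (if h : w ∈ s(u, v) then c (Sym2.Mem.other h) else f s(u, v)) ≠
      (if h : w ∈ s(u, x) then c (Sym2.Mem.other h) else f s(u, x))
    by_cases h1 : u = w
    · subst h1
      rw [hw1, hw1]
      exact hinj v (Finset.mem_insert_of_mem ((mem_nb G).2 ⟨hv, huv⟩)) x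
        (Finset.mem_insert_of_mem ((mem_nb G).2 ⟨hx, hux⟩)) hvx
    · by_cases h2 : v = w
      · subst h2
        have hxv : x ≠ v := Ne.symm hvx
        have hm : v ∉ s(u, x) := by
          rw [Sym2.mem_iff]; rintro (h | h)
          · exact h1 h.symm
          · exact hvx h
        rw [hw2, dif_neg hm]
        exact (hcx u ((mem_nb G).2 ⟨hu, huv.symm⟩)).2 x hx hxv hux
      · by_cases h3 : x = w
        · subst h3
          have hm : x ∉ s(u, v) := by
            rw [Sym2.mem_iff]; rintro (h | h)
            · exact h1 h.symm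
            · exact h2 h.symm
          rw [hw2, dif_neg hm]
          exact ((hcx u ((mem_nb G).2 ⟨hu, hux.symm⟩)).2 v hv h2 huv).symm
        · have hm1 : w ∉ s(u, v) := by
            rw [Sym2.mem_iff]; rintro (h | h)
            · exact h1 h.symm
            · exact h2 h.symm
          have hm2 : w ∉ s(u, x) := by
            rw [Sym2.mem_iff]; rintro (h | h)
            · exact h1 h.symm
            · exact h3 h.symm
          rw [dif_neg hm1, dif_neg hm2]
          exact hcol.2.1 u (Finset.mem_erase.2 ⟨h1, hu⟩) v (Finset.mem_erase.2 ⟨h2, hv⟩) x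
            (Finset.mem_erase.2 ⟨h3, hx⟩) huv hux hvx
  · have hw1 : ∀ x, (if h : w ∈ s(w, x) then c (Sym2.Mem.other h) else f s(w, x)) = c x := by
      intro x
      have hm : w ∈ s(w, x) := Sym2.mem_mk_left w x
      rw [dif_pos hm]
      have := Sym2.other_spec hm
      rw [Sym2.congr_right.1 this]
    have hw2 : ∀ x, (if h : w ∈ s(x, w) then c (Sym2.Mem.other h) else f s(x, w)) = c x := by
      intro x
      rw [Sym2.eq_swap]
      exact hw1 x
    intro u hu v hv huv
    show Function.update g w (c w) u ≠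
      (if h : w ∈ s(u, v) then c (Sym2.Mem.other h) else f s(u, v))
    by_cases h1 : u = w
    · subst h1
      rw [hw1, Function.update_self]
      exact hinj u (Finset.mem_insert_self _ _) v
        (Finset.mem_insert_of_mem ((mem_nb G).2 ⟨hv, huv⟩)) huv.ne
    · rw [Function.update_of_ne h1]
      by_cases h2 : v = w
      · subst h2
        rw [hw2]
        exact ((hcx u ((mem_nb G).2 ⟨hu, huv.symm⟩)).1).symm
      · have hm1 : w ∉ s(u, v) := by
          rw [Sym2.mem_iff]; rintro (h | h)
          · exact h1 h.symm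
          · exact h2 h.symm
        rw [dif_neg hm1]
        exact hcol.2.2 u (Finset.mem_erase.2 ⟨h1, hu⟩) v (Finset.mem_erase.2 ⟨h2, hv⟩) huv
  · intro v hv
    have : v ≠ w := fun h => hws (h ▸ hv)
    exact Function.update_of_ne this _ _
  · intro u hu v hv
    have hu' : u ≠ w := fun h => hws (h ▸ hu)
    have hv' : v ≠ w := fun h => hws (h ▸ hv)
    have hm1 : w ∉ s(u, v) := by
      rw [Sym2.mem_iff]; rintro (h | h)
      · exact hu' h.symm
      · exact hv' h.symm
    show (if h : w ∈ s(u, v) then c (Sym2.Mem.other h) else f s(u, v)) = f s(u, v)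
    rw [dif_neg hm1]

/-- The main induction. -/
lemma main [Fintype V] (d D : ℕ) (supp : Finset V)
    (hadj : ∀ u ∈ supp, ∀ v ∈ supp, G.Adj u v → H.Adj u v)
    (huniq : ∀ u v w, H.Adj u v → H.Adj u w → v = w)
    (hcommon : ∀ w, w ∉ supp → ∀ u ∈ supp, ∀ v ∈ supp, G.Adj w u → G.Adj w v → u ≠ v →
      H.Adj u v)
    (hdeg : ∀ v, (nb G univ v).card ≤ D)
    (h2 : ∀ S : Finset V, S.Nonempty → ∃ v ∈ S, (nb G S v).card ≤ d)
    (hk1 : D + d ≤ k) (hk2 : 2 * d + 3 ≤ k)
    (g0 : V → Fin k) (f0 : Sym2 V → Fin k)
    (h01 : ∀ u v, H.Adj u v → g0 u ≠ g0 v) (h03 : ∀ u v, H.Adj u v → g0 u ≠ f0 s(u, v)) :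
    ∀ (n : ℕ) (A : Finset V), supp ⊆ A → (A \ supp).card = n →
      ∃ (g : V → Fin k) (f : Sym2 V → Fin k), Col G A g f ∧ (∀ v ∈ supp, g v = g0 v) ∧
        ∀ u ∈ supp, ∀ v ∈ supp, f s(u, v) = f0 s(u, v) := by
  intro n
  induction n with
  | zero =>
    intro A hA hn
    rw [Finset.card_eq_zero, Finset.sdiff_eq_empty_iff_subset] at hn
    refine ⟨g0, f0, ⟨?_, ?_, ?_⟩, fun _ _ => rfl, fun _ _ _ _ => rfl⟩
    · intro u hu v hv huv
      exact h01 u v (hadj u (hn hu) v (hn hv) huv)
    · intro u hu v hv x hx huv hux hvx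
      exact absurd (huniq u v x (hadj u (hn hu) v (hn hv) huv) (hadj u (hn hu) x (hn hx) hux)) hvx
    · intro u hu v hv huv
      exact h03 u v (hadj u (hn hu) v (hn hv) huv)
  | succ n ih =>
    intro A hA hn
    have hne : (A \ supp).Nonempty := by rw [← Finset.card_pos]; omega
    obtain ⟨w, hw, R, hR, hw2, hg⟩ := find_w G H d A supp hadj huniq h2 hne _ ∅
      (Finset.empty_subset _) rfl (fun r hr => absurd hr (Finset.notMem_empty r))
    rw [Finset.mem_sdiff] at hw
    obtain ⟨hwA, hws⟩ := hw
    have hA' : supp ⊆ A.erase w := by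
      intro x hx
      exact Finset.mem_erase.2 ⟨fun h => hws (h ▸ hx), hA hx⟩
    have hn' : (A.erase w \ supp).card = n := by
      have : A.erase w \ supp = (A \ supp).erase w := by
        ext x; simp only [Finset.mem_sdiff, Finset.mem_erase]; tauto
      rw [this, Finset.card_erase_of_mem (Finset.mem_sdiff.2 ⟨hwA, hws⟩)]; omega
    obtain ⟨g, f, hcol, hg0, hf0⟩ := ih (A.erase w) hA' hn'
    -- lists
    let N := nb G A w
    let L : V → Finset (Fin k) := fun x =>
      if x = w then univ \ N.image g
      else univ \ (insert (g x) (((nb G A x).erase w).image (fun y => f s(x, y))))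
    have hLw : k ≤ (L w).card + N.card := by
      have h1 : L w = univ \ N.image g := if_pos rfl
      have h3 := Finset.card_image_le (s := N) (f := g)
      have h4 := Finset.le_card_sdiff (N.image g) (univ : Finset (Fin k))
      rw [Finset.card_univ, Fintype.card_fin] at h4
      rw [h1]; omega
    have hLx : ∀ x ∈ N, k ≤ (L x).card + (nb G A x).card := by
      intro x hx
      have hxw : x ≠ w := ((mem_nb G).1 hx).2.ne'
      have h1 : L x = univ \ (insert (g x) (((nb G A x).erase w).image (fun y => f s(x, y)))) :=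
        if_neg hxw
      have hwx : w ∈ nb G A x := (mem_nb G).2 ⟨hwA, ((mem_nb G).1 hx).2.symm⟩
      have h3 := Finset.card_image_le (s := (nb G A x).erase w) (f := fun y => f s(x, y))
      have h5 := Finset.card_insert_le (g x) (((nb G A x).erase w).image (fun y => f s(x, y)))
      have h6 := Finset.card_erase_of_mem hwx
      have h7 : 0 < (nb G A x).card := Finset.card_pos.2 ⟨w, hwx⟩
      have h4 := Finset.le_card_sdiff
        (insert (g x) (((nb G A x).erase w).image (fun y => f s(x, y)))) (univ : Finset (Fin k))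
      rw [Finset.card_univ, Fintype.card_fin] at h4
      rw [h1]; omega
    have hNdeg : ∀ x, (nb G A x).card ≤ D := by
      intro x
      refine (Finset.card_le_card ?_).trans (hdeg x)
      intro y hy
      rw [mem_nb] at hy ⊢
      exact ⟨mem_univ _, hy.2⟩
    have hNR : (N ∩ R).card ≤ 2 := by
      by_contra hcon
      push Not at hcon
      obtain ⟨a, b, c, ha, hb, hc, hab, hac, hbc⟩ := Finset.two_lt_card_iff.1 hcon
      rw [Finset.mem_inter] at ha hb hc
      have e1 := hcommon w hws a (hR ha.2) b (hR hb.2) ((mem_nb G).1 ha.1).2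
        ((mem_nb G).1 hb.1).2 hab
      have e2 := hcommon w hws a (hR ha.2) c (hR hc.2) ((mem_nb G).1 ha.1).2
        ((mem_nb G).1 hc.1).2 hac
      exact hbc (huniq a b c e1 e2)
    have hNsub : N ⊆ nb G (A \ R) w ∪ (N ∩ R) := by
      intro x hx
      rw [Finset.mem_union, mem_nb, Finset.mem_sdiff, Finset.mem_inter]
      by_cases hxR : x ∈ R
      · exact Or.inr ⟨hx, hxR⟩
      · exact Or.inl ⟨⟨((mem_nb G).1 hx).1, hxR⟩, ((mem_nb G).1 hx).2⟩
    have hNcard : N.card ≤ d + (N ∩ R).card := by
      have h3 := Finset.card_le_card hNsub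
      have h4 := Finset.card_union_le (nb G (A \ R) w) (N ∩ R)
      omega
    have hwN : w ∉ N := fun h => G.loopless.irrefl w ((mem_nb G).1 h).2
    have hI : (insert w N).card ≤ d + (N ∩ R).card + 1 := by
      rw [Finset.card_insert_of_notMem hwN]; omega
    have hall : ∀ T ⊆ insert w N, T.Nonempty → ∃ x ∈ T, T.card ≤ (L x).card := by
      intro T hT hTne
      have hTc := Finset.card_le_card hT
      by_cases hr2 : ∃ r ∈ T, r ∈ N ∩ R ∧ (nb G A r).card ≤ d
      · obtain ⟨r, hrT, hrN, hrd⟩ := hr2
        refine ⟨r, hrT, ?_⟩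
        have := hLx r (Finset.mem_inter.1 hrN).1
        omega
      · push Not at hr2
        by_cases hr1 : ∃ r ∈ T, r ∈ N ∩ R
        · obtain ⟨r, hrT, hrN⟩ := hr1
          refine ⟨r, hrT, ?_⟩
          have h5 := hLx r (Finset.mem_inter.1 hrN).1
          have h6 := (hg r (Finset.mem_inter.1 hrN).2).1
          have h7 : T.card ≤ d + 2 := by
            by_cases h8 : (N ∩ R).card ≤ 1
            · omega
            · -- two elements in N ∩ R, one of them with small degree, missing from T
              push Not at h8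
              obtain ⟨r', hr'N, hr'ne⟩ := Finset.exists_mem_ne h8 r
              have hr'T : r' ∉ T := by
                intro hr'T
                have e1 := hcommon w hws r (hR (Finset.mem_inter.1 hrN).2) r'
                  (hR (Finset.mem_inter.1 hr'N).2) ((mem_nb G).1 (Finset.mem_inter.1 hrN).1).2
                  ((mem_nb G).1 (Finset.mem_inter.1 hr'N).1).2 (Ne.symm hr'ne)
                rcases (hg r (Finset.mem_inter.1 hrN).2).2.2 r' (Finset.mem_inter.1 hr'N).2 e1
                  with h | h
                · exact absurd (hr2 r hrT hrN) (not_lt.2 h)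
                · exact absurd (hr2 r' hr'T hr'N) (not_lt.2 h)
              have h9 : T ⊆ (insert w N).erase r' := by
                intro x hx
                exact Finset.mem_erase.2 ⟨fun h => hr'T (h ▸ hx), hT hx⟩
              have h10 := Finset.card_le_card h9
              rw [Finset.card_erase_of_mem
                (Finset.mem_insert_of_mem (Finset.mem_inter.1 hr'N).1)] at h10
              omega
          omega
        · push Not at hr1
          have hT1 : T ⊆ insert w (nb G (A \ R) w) := by
            intro x hx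
            rcases Finset.mem_insert.1 (hT hx) with h | h
            · exact Finset.mem_insert.2 (Or.inl h)
            · refine Finset.mem_insert_of_mem ?_
              rcases Finset.mem_union.1 (hNsub h) with h' | h'
              · exact h'
              · exact absurd h' (hr1 x hx)
          by_cases hwT : w ∈ T
          · refine ⟨w, hwT, ?_⟩
            have h3 := Finset.card_le_card hT1
            have h4 := Finset.card_insert_le w (nb G (A \ R) w)
            omega
          · obtain ⟨x, hx⟩ := hTne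
            refine ⟨x, hx, ?_⟩
            have hT2 : T ⊆ nb G (A \ R) w := by
              intro y hy
              exact (Finset.mem_insert.1 (hT1 hy)).resolve_left (fun h => hwT (h ▸ hy))
            have h3 := Finset.card_le_card hT2
            have hxN : x ∈ N :=
              (Finset.mem_insert.1 (hT hx)).resolve_left (fun h => hwT (h ▸ hx))
            have h4 := hLx x hxN
            have h5 := hNdeg x
            omega
    obtain ⟨c, hc1, hc2⟩ := sdr L _ (insert w N) rfl hall (by omega)
    obtain ⟨g', f', hcol', hg', hf'⟩ := extend_one G A supp w hwA hws g f hcol c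
      (by
        intro x hx he
        have h1 : L w = univ \ N.image g := if_pos rfl
        have h3 := hc1 w (Finset.mem_insert_self _ _)
        rw [h1, Finset.mem_sdiff] at h3
        exact h3.2 (Finset.mem_image.2 ⟨x, hx, he.symm⟩))
      (by
        intro x hx
        have hxw : x ≠ w := ((mem_nb G).1 hx).2.ne'
        have h1 : L x = univ \
          (insert (g x) (((nb G A x).erase w).image (fun y => f s(x, y)))) := if_neg hxw
        have h3 := hc1 x (Finset.mem_insert_of_mem hx)
        rw [h1, Finset.mem_sdiff] at h3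
        refine ⟨fun he => h3.2 (Finset.mem_insert.2 (Or.inl he)), ?_⟩
        intro y hy hyw hxy he
        exact h3.2 (Finset.mem_insert_of_mem (Finset.mem_image.2
          ⟨y, Finset.mem_erase.2 ⟨hyw, (mem_nb G).2 ⟨hy, hxy⟩⟩, he.symm⟩)))
      hc2
    refine ⟨g', f', hcol', ?_, ?_⟩
    · intro v hv
      rw [hg' v hv, hg0 v hv]
    · intro u hu v hv
      rw [hf' u hu v hv, hf0 u hu v hv]

end

end Pool.Agent.H59.TotExt
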